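import Pool.Agent.Lib.MP_4f5308_an.Main

namespace Pool.Agent.Results.MP_4f5308_an.Counterexample

open Pool.Agent.Lib.MP_4f5308_an

universe u

/-- There are an order continuous Banach lattice `E` and a Banach space `Y` with
`DNS(E,Y)` non-empty, and an operator `K` that is not disjointly strictly singular although
`T + K` is disjointly non-singular for every disjointly non-singular `T`. -/
theorem result :
    ∃ (E : Type) (_ : NormedAddCommGroup E) (_ : NormedSpace ℝ E) (_ : CompleteSpace E)
      (_ : Lattice E) (_ : IsOrderedAddMonoid E) (_ : PosSMulMono ℝ E) (_ : HasSolidNorm E)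
      (Y : Type) (_ : NormedAddCommGroup Y) (_ : NormedSpace ℝ Y) (_ : CompleteSpace Y),
      OrderContinuous.{u} E ∧ (∃ T : E →L[ℝ] Y, DNS T) ∧
        ∃ K : E →L[ℝ] Y, ¬ DSS K ∧ ∀ T : E →L[ℝ] Y, DNS T → DNS (T + K) :=
  ⟨XX × WW, inferInstance, inferInstance, inferInstance, inferInstance, inferInstance,
    inferInstance, inferInstance, XX × WW, inferInstance, inferInstance, inferInstance,
    order_continuous, ⟨_, dns_id⟩, KK, not_dss, fun _ hT => dns_add hT⟩

end Pool.Agent.Results.MP_4f5308_an.Counterexample
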